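import Pool.Agent.Helper17.SA.St4
import Pool.Agent.Helper90.SA.M_AUT

/-!
# Project SA (MP_21f9f3), module AUG: automorphisms of alternating groups which preserve the `3`-cycles
are induced by permutations (variant of Pool.Agent.Helper90.SA.M_AUT)
-/

set_option autoImplicit false

namespace Pool.Agent.Helper48.SA

open Equiv Pool.Agent.Helper17.SA Pool.Agent.Helper90.SA

theorem pAUG : StAUG := by
  intro m φ hm hAU
  set o : Fin m := ⟨0, by omega⟩ with ho
  set e : Fin m := ⟨1, by omega⟩ with he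
  set i2 : Fin m := ⟨2, by omega⟩ with hi2
  set i3 : Fin m := ⟨3, by omega⟩ with hi3
  have oe : o ≠ e := by rw [ho, he]; simp [Fin.ext_iff]
  have o2 : o ≠ i2 := by rw [ho, hi2]; simp [Fin.ext_iff]
  have e2 : e ≠ i2 := by rw [he, hi2]; simp [Fin.ext_iff]
  have o3 : o ≠ i3 := by rw [ho, hi3]; simp [Fin.ext_iff]
  have e3 : e ≠ i3 := by rw [he, hi3]; simp [Fin.ext_iff]
  have h23 : i2 ≠ i3 := by rw [hi2, hi3]; simp [Fin.ext_iff]
  clear_value o e i2 i3
  have hmem : ∀ i : Fin m, o ≠ i → e ≠ i → c3 o e i ∈ alternatingGroup (Fin m) :=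
    fun i h1 h2 => (c3_three o e i oe h1 h2).mem_alternatingGroup
  -- the images of the cycles
  have key : ∀ i : Fin m, ∃ d : Perm (Fin m), ∀ (h1 : o ≠ i) (h2 : e ≠ i),
      (φ ⟨c3 o e i, hmem i h1 h2⟩ : Perm (Fin m)) = d := by
    intro i
    by_cases h : o ≠ i ∧ e ≠ i
    · exact ⟨φ ⟨c3 o e i, hmem i h.1 h.2⟩, fun _ _ => rfl⟩
    · exact ⟨1, fun h1 h2 => absurd ⟨h1, h2⟩ h⟩
  choose d hd using key
  have dT : ∀ i, o ≠ i → e ≠ i → (d i).IsThreeCycle := by
    intro i h1 h2
    rw [← hd i h1 h2]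
    exact hAU _ (c3_three o e i oe h1 h2)
  have dprod : ∀ i j, o ≠ i → e ≠ i → o ≠ j → e ≠ j → i ≠ j →
      (d i * d j) * (d i * d j) = 1 ∧ d i * d j ≠ 1 := by
    intro i j h1 h2 h3 h4 hij
    have hp := prod_c3 o e i j oe h1 h3 h2 h4 hij
    rw [← hd i h1 h2, ← hd j h3 h4]
    constructor
    · have : ((⟨c3 o e i, hmem i h1 h2⟩ : alternatingGroup (Fin m)) * ⟨c3 o e j, hmem j h3 h4⟩) *
          (⟨c3 o e i, hmem i h1 h2⟩ * ⟨c3 o e j, hmem j h3 h4⟩) = 1 := Subtype.ext hp.1
      have h5 := congrArg φ this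
      rw [map_one, map_mul, map_mul] at h5
      exact congrArg Subtype.val h5
    · intro h
      apply hp.2
      have h6 : φ (⟨c3 o e i, hmem i h1 h2⟩ * ⟨c3 o e j, hmem j h3 h4⟩) = 1 := by
        rw [map_mul]
        exact Subtype.ext h
      have h7 : (⟨c3 o e i, hmem i h1 h2⟩ * ⟨c3 o e j, hmem j h3 h4⟩ :
          alternatingGroup (Fin m)) = 1 := by
        apply φ.injective
        rw [h6, map_one]
      exact congrArg Subtype.val h7
  have dinj : ∀ i j, o ≠ i → e ≠ i → o ≠ j → e ≠ j → d i = d j → i = j := by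
    intro i j h1 h2 h3 h4 h
    rw [← hd i h1 h2, ← hd j h3 h4] at h
    have h5 := φ.injective (Subtype.ext h)
    have h6 : c3 o e i = c3 o e j := congrArg Subtype.val h5
    have h7 := congrArg (fun g : Perm (Fin m) => g e) h6
    simpa [c3_b] using h7
  -- the common directed edge
  have dedge : ∀ i j, o ≠ i → e ≠ i → o ≠ j → e ≠ j → i ≠ j → ∃ q, d i q ≠ q ∧ d j q = d i q := by
    intro i j h1 h2 h3 h4 hij
    have hp := dprod i j h1 h2 h3 h4 hij
    exact edge (d i) (d j) (dT i h1 h2) (dT j h3 h4) hp.1 hp.2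
  obtain ⟨x, hx, hx3⟩ := dedge i2 i3 o2 e2 o3 e3 h23
  obtain ⟨y, hy⟩ : ∃ y, y = d i2 x := ⟨_, rfl⟩
  have hzw : d i2 (d i2 x) ≠ d i3 (d i3 x) := by
    intro h
    apply h23
    apply dinj i2 i3 o2 e2 o3 e3
    rw [eq_c3 (d i2) (dT i2 o2 e2) x hx, eq_c3 (d i3) (dT i3 o3 e3) x (by rw [hx3]; exact hx), h, hx3]
  have hall : ∀ i, o ≠ i → e ≠ i → d i x = y := by
    intro i h1 h2
    by_cases c2 : i = i2
    · rw [c2, hy]
    · by_cases c3' : i = i3
      · rw [c3', hx3, hy]
      · rw [hy]
        exact third (d i2) (d i3) (d i) (dT i2 o2 e2) (dT i3 o3 e3) (dT i h1 h2) x hx hx3 hzw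
          (dedge i2 i o2 e2 h1 h2 (Ne.symm c2)) (dedge i3 i o3 e3 h1 h2 (Ne.symm c3'))
  have hyx : y ≠ x := by rw [hy]; exact hx
  have hform : ∀ i, o ≠ i → e ≠ i → d i = c3 x y (d i y) := by
    intro i h1 h2
    have h := hall i h1 h2
    have hm' : d i x ≠ x := by rw [h]; exact hyx
    have := eq_c3 (d i) (dT i h1 h2) x hm'
    rw [h] at this
    exact this
  have hne : ∀ i, o ≠ i → e ≠ i → x ≠ d i y ∧ y ≠ d i y := by
    intro i h1 h2
    have h := hall i h1 h2
    have hm' : d i x ≠ x := by rw [h]; exact hyx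
    have := nod (d i) (dT i h1 h2) x hm'
    rw [h] at this
    exact ⟨this.2.1, this.2.2⟩
  -- the permutation
  obtain ⟨t, ht⟩ : ∃ t : Fin m → Fin m, t = fun i => if o = i then x else if e = i then y else d i y :=
    ⟨_, rfl⟩
  have t_o : t o = x := by rw [ht]; simp
  have te : t e = y := by rw [ht]; simp [oe]
  have ti : ∀ i, o ≠ i → e ≠ i → t i = d i y := by
    intro i h1 h2
    rw [ht]
    simp [h1, h2]
  have tinj : Function.Injective t := by
    intro i j hij
    by_cases i1 : o = i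
    · rw [← i1, t_o] at hij
      by_cases j1 : o = j
      · rw [← i1, ← j1]
      · by_cases j2 : e = j
        · rw [← j2, te] at hij
          exact absurd hij.symm hyx
        · rw [ti j j1 j2] at hij
          exact absurd hij (hne j j1 j2).1
    · by_cases i2' : e = i
      · rw [← i2', te] at hij
        by_cases j1 : o = j
        · rw [← j1, t_o] at hij
          exact absurd hij hyx
        · by_cases j2 : e = j
          · rw [← i2', ← j2]
          · rw [ti j j1 j2] at hij
            exact absurd hij (hne j j1 j2).2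
      · rw [ti i i1 i2'] at hij
        by_cases j1 : o = j
        · rw [← j1, t_o] at hij
          exact absurd hij.symm (hne i i1 i2').1
        · by_cases j2 : e = j
          · rw [← j2, te] at hij
            exact absurd hij.symm (hne i i1 i2').2
          · rw [ti j j1 j2] at hij
            apply dinj i j i1 i2' j1 j2
            rw [hform i i1 i2', hform j j1 j2, hij]
  let τ : Perm (Fin m) := Equiv.ofBijective t (Finite.injective_iff_bijective.mp tinj)
  have hτ : ∀ i, τ i = t i := fun i => rfl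
  refine ⟨τ, ?_⟩
  -- the two homomorphisms
  let f : alternatingGroup (Fin m) →* Perm (Fin m) :=
    (alternatingGroup (Fin m)).subtype.comp φ.toMonoidHom
  let g : alternatingGroup (Fin m) →* Perm (Fin m) :=
    (MulAut.conj τ).toMonoidHom.comp (alternatingGroup (Fin m)).subtype
  have hK : ∀ s : Perm (Fin m), s.IsThreeCycle →
      s ∈ (MonoidHom.eqLocus f g).map (alternatingGroup (Fin m)).subtype := by
    apply all_three _ o e
    intro i h1 h2
    rw [Subgroup.mem_map]
    refine ⟨⟨c3 o e i, hmem i h1.symm h2.symm⟩, ?_, rfl⟩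
    show (φ ⟨c3 o e i, hmem i h1.symm h2.symm⟩ : Perm (Fin m)) = τ * c3 o e i * τ⁻¹
    rw [hd i h1.symm h2.symm, ← c3_conj, hτ, hτ, hτ, t_o, te, ti i h1.symm h2.symm]
    exact hform i h1.symm h2.symm
  intro a
  have ha : (a : Perm (Fin m)) ∈
      (MonoidHom.eqLocus f g).map (alternatingGroup (Fin m)).subtype := by
    have h1 : Subgroup.closure {σ : Perm (Fin m) | σ.IsThreeCycle} ≤
        (MonoidHom.eqLocus f g).map (alternatingGroup (Fin m)).subtype := by
      rw [Subgroup.closure_le]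
      intro s hs
      exact hK s hs
    have h2 : (a : Perm (Fin m)) ∈ Subgroup.closure {σ : Perm (Fin m) | σ.IsThreeCycle} := by
      rw [Perm.closure_three_cycles_eq_alternating]
      exact a.2
    exact h1 h2
  rw [Subgroup.mem_map] at ha
  obtain ⟨b, hb, hba⟩ := ha
  have hab : b = a := Subtype.ext hba
  rw [hab] at hb
  exact hb

end Pool.Agent.Helper48.SA
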